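import Pool.Agent.helper82.PL.Prog

/-!
# Path-like trees can be recognised in polynomial time

A tree is path-like if and only if it decomposes into paths (rows) `Q₁, ..., Q_r`, where the
vertex at distance `d_j ≥ 1` from the end of `Q_j` is joined to the vertex at distance `d_j` from
the start of `Q_{j+1}` (`pathLike_iff_rows`).  Dynamic programming over pairs consisting of an
oriented edge and a number `d` decides whether such a decomposition exists.
-/

open Pool.Agent.helper82.PL in
/-- There is a program which decides in polynomial time, given a tree by its number of vertices
and the list of its edges, whether the tree is path-like. -/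
theorem Pool.Agent.Results.MP_eef266_lc.RecognitionInP.result :
    ∃ (P : Cmd) (K k : ℕ), ∀ (n : ℕ) (T : SimpleGraph (Fin n)) (E : List (Fin n × Fin n)),
      T.IsTree → ListsEdges T E →
        (P.accepts (input n E) ↔ PathLike T) ∧
          P.cost (input n E) ≤ K * (n + E.length + 2) ^ k := by
  obtain ⟨K, k, h⟩ := Cmd.pb program_ok
  exact ⟨program, K, k, fun n T E hT hE => ⟨program_correct hT hE, h _ _ (input_bdd n E)⟩⟩
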